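import Pool.Agent.P.MP_347bd1_pr.M.Final

namespace Pool.Agent.Results.MP_347bd1_pr.Diffusive

open Pool.Agent.P.MP_347bd1_pr Filter Topology

/-- Free boundary condition: the correlation tends to one along all times `t n = o (n ^ 2)`. -/
theorem result :
    ∀ t : ℕ → ℝ, (∀ n, 0 ≤ t n) → Tendsto (fun n : ℕ => t n / (n : ℝ) ^ 2) atTop (𝓝 0) →
      Tendsto (fun n => corr BC.free n (t n)) atTop (𝓝 1) :=
  M.g_MAIN

end Pool.Agent.Results.MP_347bd1_pr.Diffusive
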