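import Pool.Agent.P.MP_347bd1_pr.Final

namespace Pool.Agent.Results.MP_347bd1_pr.Noise

open Pool.Agent.P.MP_347bd1_pr Filter Topology

/-- Free boundary condition: the correlation tends to one. Plus boundary condition: the variance
is positive and tends to zero, and the correlation stays away from one. -/
theorem result :
    (∀ t : ℝ, 0 < t → Tendsto (fun n => corr BC.free n t) atTop (𝓝 1)) ∧
    Tendsto (fun n => var BC.plus (fcr (n := n))) atTop (𝓝 0) ∧
    ∀ t : ℝ, 0 < t → ∃ c : ℝ, 0 < c ∧ ∀ n : ℕ, 2 ≤ n →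
      0 < var BC.plus (fcr (n := n)) ∧ corr BC.plus n t ≤ 1 - c :=
  ⟨main_free, main_var, main_plus⟩

end Pool.Agent.Results.MP_347bd1_pr.Noise
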